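import Mathlib
import Pool.Agent.H20.RF4

namespace Pool.Agent.Results.MP_f3c5e4_al.Oscillate

open Pool.Agent.H20.RFG

theorem result : ∃ (G : Type) (_ : Group G) (S : Finset G),
    Subgroup.closure (S : Set G) = ⊤ ∧ ResFin G ∧
    (¬ ∃ H : Subgroup G, H.FiniteIndex ∧ Group.IsNilpotent H) ∧
    (∃ C : ℕ, 0 < C ∧ ∀ n, rf (S : Set G) n ≤ C * n ^ C) ∧
    ∀ α : ℝ, ¬ (Prec (fun n => rf (S : Set G) n) (fun n => (n : ℝ) ^ α) ∧
      Prec (fun n => (n : ℝ) ^ α) (fun n => rf (S : Set G) n)) :=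
  oscillate

end Pool.Agent.Results.MP_f3c5e4_al.Oscillate
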